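import Pool.Agent.H947R2.TP.Stubs

/-!
Task B5 (MP_c4753b_co): Hajos for lattice tilings by cubes, from the rational case.
-/

namespace H947TP

namespace B5

/-- replace the coordinates in `T` by `φ` of them -/
noncomputable def gm {D : ℕ} (φ : ℝ →ₗ[ℚ] ℚ) (T : Finset (Fin D)) :
    (Fin D → ℝ) →+ (Fin D → ℝ) where
  toFun v i := if i ∈ T then ((φ (v i) : ℚ) : ℝ) else v i
  map_zero' := by
    ext i
    by_cases h : i ∈ T <;> simp [h]
  map_add' u v := by
    ext i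
    by_cases h : i ∈ T <;> simp [h]

/-- the difference of `φ` and the identity -/
noncomputable def fm (φ : ℝ →ₗ[ℚ] ℚ) : ℝ →+ ℝ where
  toFun x := ((φ x : ℚ) : ℝ) - x
  map_zero' := by simp
  map_add' u v := by simp; ring

theorem gm_empty {D : ℕ} (φ : ℝ →ₗ[ℚ] ℚ) (L : AddSubgroup (Fin D → ℝ)) :
    L.map (gm φ ∅) = L := by
  have : gm φ (∅ : Finset (Fin D)) = AddMonoidHom.id _ := by
    ext v i
    simp [gm]
  rw [this, AddSubgroup.map_id]

theorem gm_insert {D : ℕ} (φ : ℝ →ₗ[ℚ] ℚ) (T : Finset (Fin D)) (k : Fin D) (hk : k ∉ T)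
    (L : AddSubgroup (Fin D → ℝ)) :
    L.map (gm φ (insert k T)) = (L.map (gm φ T)).map (shiftMap k (fm φ)) := by
  rw [AddSubgroup.map_map]
  congr 1
  refine AddMonoidHom.ext fun v => ?_
  have hR : ((shiftMap k (fm φ)).comp (gm φ T)) v
      = (gm φ T v + Pi.single k (fm φ (gm φ T v k)) : Fin D → ℝ) := rfl
  rw [hR]
  funext i
  show (if i ∈ insert k T then ((φ (v i) : ℚ) : ℝ) else v i) =
    (gm φ T v + Pi.single k (fm φ (gm φ T v k)) : Fin D → ℝ) i
  by_cases h : i = k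
  · subst h
    simp [gm, fm, hk]
  · simp [gm, h]

theorem tile_gm (hB1 : St_B1) {D : ℕ} (φ : ℝ →ₗ[ℚ] ℚ) (h1 : φ 1 = 1)
    (L : AddSubgroup (Fin D → ℝ)) (hL : IsTile L) (T : Finset (Fin D)) :
    IsTile (L.map (gm φ T)) := by
  induction T using Finset.induction_on with
  | empty => rw [gm_empty]; exact hL
  | insert k T hk ih =>
    rw [gm_insert φ T k hk L]
    exact hB1 D _ k (fm φ) (by simp [fm, h1]) ih

theorem exists_eta (T : Finset ℝ) (hT : ∀ s ∈ T, 0 < s) : ∃ η : ℝ, 0 < η ∧ ∀ s ∈ T, η ≤ s := by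
  obtain ⟨a, ha, hmin⟩ := (insert (1 : ℝ) T).exists_min_image id ⟨1, by simp⟩
  refine ⟨a, ?_, fun s hs => hmin s (by simp [hs])⟩
  rcases Finset.mem_insert.1 ha with h | h
  · rw [h]; norm_num
  · exact hT a h

end B5

open B5 in
theorem B5 (hB1 : St_B1) (hB2 : St_B2) (hB3 : St_B3) (hB4 : St_B4) : St_B5 := by
  intro D L hD hL
  classical
  obtain ⟨hfg, hfin, -⟩ := hB3 D L hL
  have hW := hfin 1
  set W : Finset (Fin D → ℝ) := hW.toFinset with hWdef
  have hWm : ∀ v, v ∈ W ↔ v ∈ L ∧ ∀ i, |v i| ≤ 1 := by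
    intro v; rw [hWdef, Set.Finite.mem_toFinset]; rfl
  set S : Finset ℝ := (W ×ˢ (Finset.univ : Finset (Fin D))).image (fun p => p.1 p.2) with hS
  obtain ⟨η, hη, hηS⟩ := exists_eta
    (((S.filter (fun s => s ≠ 0)).image (fun s => |s|)) ∪
      ((S.filter (fun s => s ≠ -1)).image (fun s => |s + 1|))) (by
      intro s hs
      rcases Finset.mem_union.1 hs with h | h
      · obtain ⟨t, ht, rfl⟩ := Finset.mem_image.1 h
        exact abs_pos.2 (Finset.mem_filter.1 ht).2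
      · obtain ⟨t, ht, rfl⟩ := Finset.mem_image.1 h
        refine abs_pos.2 ?_
        have := (Finset.mem_filter.1 ht).2
        intro h0
        exact this (by linarith))
  obtain ⟨φ, hφ1, hφS⟩ := hB2 S η hη
  have hη0 : ∀ s ∈ S, s ≠ 0 → η ≤ |s| := fun s hs h0 =>
    hηS _ (Finset.mem_union_left _ (Finset.mem_image.2 ⟨s, Finset.mem_filter.2 ⟨hs, h0⟩, rfl⟩))
  have hη1 : ∀ s ∈ S, s ≠ -1 → η ≤ |s + 1| := fun s hs h0 =>
    hηS _ (Finset.mem_union_right _ (Finset.mem_image.2 ⟨s, Finset.mem_filter.2 ⟨hs, h0⟩, rfl⟩))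
  set L' := L.map (gm φ Finset.univ) with hL'
  have htile : IsTile L' := tile_gm hB1 φ hφ1 L hL _
  have hfg' : L'.FG := by
    obtain ⟨G, hG⟩ := hfg
    exact ⟨G.image (gm φ Finset.univ), by rw [Finset.coe_image, ← AddMonoidHom.map_closure, hG]⟩
  have hgm : ∀ v i, gm φ (Finset.univ : Finset (Fin D)) v i = ((φ (v i) : ℚ) : ℝ) := by
    intro v i; simp [gm]
  have hrat : ∀ v ∈ L', ∀ i, ∃ r : ℚ, v i = (r : ℝ) := by
    intro v hv i
    obtain ⟨w, hw, rfl⟩ := AddSubgroup.mem_map.1 hv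
    exact ⟨φ (w i), hgm w i⟩
  obtain ⟨k, hk⟩ := hB4 D L' hD htile hfg' hrat
  obtain ⟨u, ⟨huL, hu⟩, -⟩ := hL (Pi.single k (1 : ℝ))
  have huk : u k ≤ 1 ∧ 0 < u k := by
    have := hu k
    rw [Pi.single_eq_same] at this
    exact ⟨this.1, by linarith [this.2]⟩
  have hui : ∀ i, i ≠ k → u i ≤ 0 ∧ -1 < u i := by
    intro i hi
    have := hu i
    rw [Pi.single_eq_of_ne hi] at this
    exact ⟨this.1, by linarith [this.2]⟩
  -- the claim
  have huk1 : u k = 1 := by
    by_contra hne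
    have hlt : u k < 1 := lt_of_le_of_ne huk.1 hne
    obtain ⟨w, -, hw⟩ := hL (Pi.single k (u k))
    have h1 : (0 : Fin D → ℝ) = w := hw 0 ⟨L.zero_mem, fun i => by
      by_cases h : i = k
      · subst h; simp; exact ⟨huk.2.le, hlt⟩
      · rw [Pi.single_eq_of_ne h]; simp⟩
    have h2 : u = w := hw u ⟨huL, fun i => by
      by_cases h : i = k
      · subst h; simp
      · rw [Pi.single_eq_of_ne h]
        exact ⟨(hui i h).1, by linarith [(hui i h).2]⟩⟩
    have h3 : u = 0 := h2.trans h1.symm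
    rw [h3] at huk
    exact lt_irrefl _ huk.2
  have huS : ∀ i, u i ∈ S := by
    intro i
    rw [hS]
    refine Finset.mem_image.2 ⟨(u, i), Finset.mem_product.2 ⟨?_, Finset.mem_univ _⟩, rfl⟩
    rw [hWm]
    refine ⟨huL, fun j => ?_⟩
    show |u j| ≤ 1
    by_cases h : j = k
    · subst h; rw [huk1]; simp
    · rw [abs_le]; exact ⟨(hui j h).2.le, by linarith [(hui j h).1]⟩
  have hneg : ∀ i, i ≠ k → u i ≠ 0 → ((φ (u i) : ℚ) : ℝ) < 0 := by
    intro i hi h0
    have h1 := abs_lt.1 (hφS _ (huS i))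
    have h2 := hη0 _ (huS i) h0
    rw [abs_of_nonpos (hui i hi).1] at h2
    linarith [h1.2]
  have hle : ∀ i, i ≠ k → ((φ (u i) : ℚ) : ℝ) ≤ 0 := by
    intro i hi
    by_cases h0 : u i = 0
    · rw [h0]; simp
    · exact (hneg i hi h0).le
  have hgt : ∀ i, i ≠ k → -1 < ((φ (u i) : ℚ) : ℝ) := by
    intro i hi
    have h1 := abs_lt.1 (hφS _ (huS i))
    have h2 := hη1 _ (huS i) (by linarith [(hui i hi).2] : u i ≠ -1)
    rw [abs_of_pos (by linarith [(hui i hi).2])] at h2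
    linarith [h1.1]
  set d : Fin D → ℝ := Pi.single k (1 : ℝ) - gm φ Finset.univ u with hd
  have hdL : d ∈ L' := L'.sub_mem hk (AddSubgroup.mem_map_of_mem _ huL)
  have hdk : d k = 0 := by
    rw [hd, Pi.sub_apply, Pi.single_eq_same, hgm, huk1, hφ1]; simp
  have hdi : ∀ i, i ≠ k → d i = -((φ (u i) : ℚ) : ℝ) := by
    intro i hi
    rw [hd, Pi.sub_apply, Pi.single_eq_of_ne hi, hgm]; simp
  have hd0 : d = 0 := by
    obtain ⟨w, -, hw⟩ := htile d
    have h1 : (0 : Fin D → ℝ) = w := hw 0 ⟨L'.zero_mem, fun i => by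
      by_cases h : i = k
      · subst h; rw [hdk]; simp
      · rw [hdi i h]
        simp only [Pi.zero_apply]
        exact ⟨by linarith [hle i h], by linarith [hgt i h]⟩⟩
    have h2 : d = w := hw d ⟨hdL, fun i => ⟨le_refl _, by linarith⟩⟩
    exact h2.trans h1.symm
  have hu0 : ∀ i, i ≠ k → u i = 0 := by
    intro i hi
    by_contra h0
    have h1 := hneg i hi h0
    have h2 := hdi i hi
    rw [hd0] at h2
    simp only [Pi.zero_apply] at h2
    linarith
  refine ⟨k, ?_⟩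
  have : u = Pi.single k (1 : ℝ) := by
    funext i
    by_cases h : i = k
    · subst h; rw [huk1]; simp
    · rw [Pi.single_eq_of_ne h, hu0 i h]
  rw [← this]
  exact huL

end H947TP
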